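import Pool.Agent.V11112.TE5

/-!
A transitive system of finite entropy where the growth rates of spanning sets and of separated
sets both oscillate at the same scale.
-/

open Filter Topology

namespace Pool.Agent.Results.MP_307271_an.BothOscillateTransitive

open V11112.TE

/-- letters: the three-element subsets of a set of 64 elements -/
abbrev Tri : Type := {s : Finset (Fin 64) // s.card = 3}

instance : Inhabited Tri := ⟨⟨{0, 1, 2}, by decide⟩⟩

/-- closeness of letters: meeting in exactly one point in the first phase, and not meeting in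
exactly one point in the second phase -/
def meet (c : Bool) (v v' : Tri) : Prop :=
  match c with
  | false => (v.1 ∩ v'.1).card = 1
  | true => (v.1 ∩ v'.1).card ≠ 1

theorem far_false {v v' : Tri} (h : farV meet false v v') :
    (v.1 ∩ v'.1).card = 0 ∨ (v.1 ∩ v'.1).card = 2 := by
  obtain ⟨hne, h2⟩ := h
  have h3 : (v.1 ∩ v'.1).card ≠ 1 := fun hc => h2 (Or.inl hc)
  have h4 : (v.1 ∩ v'.1).card ≠ 3 := by
    intro hc
    apply hne
    have e1 : v.1 ∩ v'.1 = v.1 :=
      Finset.eq_of_subset_of_card_le Finset.inter_subset_left (by rw [hc, v.2])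
    have e2 : v.1 ∩ v'.1 = v'.1 :=
      Finset.eq_of_subset_of_card_le Finset.inter_subset_right (by rw [hc, v'.2])
    exact Subtype.ext (e1.symm.trans e2)
  have h5 : (v.1 ∩ v'.1).card ≤ 3 := by
    calc (v.1 ∩ v'.1).card ≤ v.1.card := Finset.card_le_card Finset.inter_subset_left
      _ = 3 := v.2
  omega

theorem far_true {v v' : Tri} (h : farV meet true v v') : (v.1 ∩ v'.1).card = 1 := by
  obtain ⟨_, h2⟩ := h
  by_contra hc
  exact h2 (Or.inl hc)

theorem hcls (v v' : Tri) (h1 : ¬ farV meet false v v') (h2 : ¬ farV meet true v v') : v = v' := by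
  by_contra hne
  apply h2
  refine ⟨hne, ?_⟩
  have h3 : (v.1 ∩ v'.1).card = 1 := by
    by_contra hc
    apply h1
    refine ⟨hne, ?_⟩
    rintro (h | h)
    · exact hc h
    · have h' : (v'.1 ∩ v.1).card = 1 := h
      rw [Finset.inter_comm] at h'
      exact hc h'
  rintro (h | h)
  · exact h h3
  · have h' : (v'.1 ∩ v.1).card ≠ 1 := h
    rw [Finset.inter_comm] at h'
    exact h' h3

/-- the rank bound for products -/
theorem rank_bound {K ι : Type} [Field K] [Fintype ι] (φ ψ : Tri → ι → K)
    {c : Bool} (hdiag : ∀ v, ∑ a, φ v a * ψ v a ≠ 0)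
    (hoff : ∀ v w, farV meet c v w → ∑ a, φ v a * ψ w a = 0) (T : ℕ)
    (F : Finset (Fin T → Tri)) (hF : ∀ f ∈ F, ∀ g ∈ F, f ≠ g → ∃ t, farV meet c (f t) (g t)) :
    F.card ≤ Fintype.card ι ^ T := by
  classical
  have hpair : ∀ f g : Fin T → Tri,
      ∑ α : Fin T → ι, (∏ t, φ (f t) (α t)) * (∏ t, ψ (g t) (α t)) =
        ∏ t, ∑ a, φ (f t) a * ψ (g t) a := by
    intro f g
    rw [Finset.prod_univ_sum]
    simp only [Fintype.piFinset_univ, Finset.prod_mul_distrib]
  let L : (F → K) →ₗ[K] ((Fin T → ι) → K) :=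
    { toFun := fun x α => ∑ g : F, x g * ∏ t, ψ (g.1 t) (α t)
      map_add' := by
        intro x y; funext α
        simp only [Pi.add_apply, add_mul, Finset.sum_add_distrib]
      map_smul' := by
        intro r x; funext α
        simp only [Pi.smul_apply, smul_eq_mul, RingHom.id_apply, Finset.mul_sum, mul_assoc] }
  have hL : Function.Injective L := by
    rw [← LinearMap.ker_eq_bot, LinearMap.ker_eq_bot']
    intro x hx
    funext f
    have h1 : ∑ α : Fin T → ι, (∏ t, φ (f.1 t) (α t)) * L x α = 0 := by
      rw [hx]; simp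
    have h2 : ∑ α : Fin T → ι, (∏ t, φ (f.1 t) (α t)) * L x α =
        ∑ g : F, x g * ∏ t, ∑ a, φ (f.1 t) a * ψ (g.1 t) a := by
      have e1 : ∀ α : Fin T → ι, (∏ t, φ (f.1 t) (α t)) * L x α =
          ∑ g : F, x g * ((∏ t, φ (f.1 t) (α t)) * ∏ t, ψ (g.1 t) (α t)) := by
        intro α
        show (∏ t, φ (f.1 t) (α t)) * (∑ g : F, x g * ∏ t, ψ (g.1 t) (α t)) = _
        rw [Finset.mul_sum]
        refine Finset.sum_congr rfl (fun g _ => ?_)
        ring
      simp only [e1]
      rw [Finset.sum_comm]
      refine Finset.sum_congr rfl (fun g _ => ?_)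
      rw [← Finset.mul_sum, hpair]
    rw [h2, Finset.sum_eq_single f] at h1
    · have h3 : (∏ t, ∑ a, φ (f.1 t) a * ψ (f.1 t) a) ≠ 0 :=
        Finset.prod_ne_zero_iff.2 (fun t _ => hdiag _)
      exact (mul_eq_zero.1 h1).resolve_right h3
    · intro g _ hg
      have hne : f.1 ≠ g.1 := fun h => hg (Subtype.ext h.symm)
      obtain ⟨t, ht⟩ := hF f.1 f.2 g.1 g.2 hne
      have h3 : (∏ t, ∑ a, φ (f.1 t) a * ψ (g.1 t) a) = 0 :=
        Finset.prod_eq_zero (Finset.mem_univ t) (hoff _ _ ht)
      rw [h3, mul_zero]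
    · intro h; exact absurd (Finset.mem_univ f) h
  have := LinearMap.finrank_le_finrank_of_injective hL
  simpa using this

theorem inner_eq {K : Type} [Field K] (v w : Tri) :
    ∑ a : Fin 64, (if a ∈ v.1 then (1 : K) else 0) * (if a ∈ w.1 then (1 : K) else 0) =
      ((v.1 ∩ w.1).card : K) := by
  have : ∀ a : Fin 64, (if a ∈ v.1 then (1 : K) else 0) * (if a ∈ w.1 then (1 : K) else 0) =
      if a ∈ v.1 ∩ w.1 then (1 : K) else 0 := by
    intro a
    by_cases h1 : a ∈ v.1 <;> by_cases h2 : a ∈ w.1 <;> simp [h1, h2]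
  rw [Finset.sum_congr rfl (fun a _ => this a), Finset.sum_ite_mem, Finset.univ_inter]
  simp

theorem hM (c : Bool) (T : ℕ) (F : Finset (Fin T → Tri))
    (hF : ∀ f ∈ F, ∀ g ∈ F, f ≠ g → ∃ t, farV meet c (f t) (g t)) : F.card ≤ 65 ^ T := by
  cases c
  · have h := rank_bound (K := ZMod 2) (ι := Fin 64) (c := false)
      (fun v a => if a ∈ v.1 then 1 else 0) (fun v a => if a ∈ v.1 then 1 else 0)
      (fun v => by
        rw [inner_eq, Finset.inter_self, v.2]
        decide)
      (fun v w hvw => by
        rw [inner_eq]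
        rcases far_false hvw with h | h <;> rw [h] <;> decide) T F hF
    rw [Fintype.card_fin] at h
    exact h.trans (Nat.pow_le_pow_left (by norm_num) T)
  · have h := rank_bound (K := ℚ) (ι := Option (Fin 64)) (c := true)
      (fun v a => match a with
        | some a => if a ∈ v.1 then 1 else 0
        | none => 1)
      (fun v a => match a with
        | some a => if a ∈ v.1 then 1 else 0
        | none => -1)
      (fun v => by
        rw [Fintype.sum_option]
        simp only
        rw [inner_eq, Finset.inter_self, v.2]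
        norm_num)
      (fun v w hvw => by
        rw [Fintype.sum_option]
        simp only
        rw [inner_eq, far_true hvw]
        norm_num) T F hF
    rw [Fintype.card_option, Fintype.card_fin] at h
    exact h

theorem card_tri : Fintype.card Tri = 41664 := by
  rw [Fintype.card_finset_len, Fintype.card_fin]
  decide

/-- **Result** (positive answer to the first question). There is a topologically transitive
system `(X, F)` of finite entropy and a scale `ε > 0` at which both the lower and upper growth
rates of `span` differ and the lower and upper growth rates of `sep` differ. -/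
theorem result : ∃ (X : Type) (_ : MetricSpace X) (_ : CompactSpace X) (F : X ≃ₜ X),
    Transitive F ∧ (∃ h : ℝ, HasEntropy F h) ∧
    ∃ ε : ℝ, 0 < ε ∧ lowerSpan F ε < upperSpan F ε ∧ lowerSep F ε < upperSep F ε := by
  obtain ⟨e, he⟩ := exists_surjective_nat (ℕ × List Tri)
  refine ⟨Pt (clS meet) (word e), inferInstance, compactSpace_pt, shiftHomeo,
    transitive_shift (word_isLim e), ⟨_, hasEntropy he⟩, 1, one_pos, ?_⟩
  have hlt : Real.log ((65 : ℕ) : ℝ) < 2 / 5 * Real.log (Fintype.card Tri) := by
    rw [card_tri]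
    have h1 : (5 : ℝ) * Real.log 65 < 2 * Real.log 41664 := by
      have e1 : (5 : ℝ) * Real.log 65 = Real.log (65 ^ 5) := by rw [Real.log_pow]; norm_num
      have e2 : (2 : ℝ) * Real.log 41664 = Real.log (41664 ^ 2) := by rw [Real.log_pow]; norm_num
      rw [e1, e2]
      exact Real.log_lt_log (by norm_num) (by norm_num)
    push_cast
    linarith
  obtain ⟨c, hc1, hc2⟩ := exists_between hlt
  have hup := upperSpan_ge (adj := meet) (C := Tri) id id (fun _ => rfl) hcls
    (by rw [card_tri]; norm_num) he (ε := 1) (by norm_num) le_rfl hc2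
  have hlow := lowerSep_le (adj := meet) he (M := 65) (by norm_num) hM (ε := 1) (by norm_num) le_rfl
  exact ⟨lt_of_lt_of_le (lt_of_le_of_lt hlow.2 hc1) hup.1,
    lt_of_lt_of_le (lt_of_le_of_lt hlow.1 hc1) hup.2⟩

end Pool.Agent.Results.MP_307271_an.BothOscillateTransitive
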