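import Pool.Agent.V11112.TE5

/-!
A transitive system of finite entropy where the growth rate of spanning sets oscillates at some
scale while the growth rate of separated sets converges at every scale.
-/

open Filter Topology

namespace Pool.Agent.Results.MP_307271_an.SpanOscillatesTransitive

open V11112.TE

/-- the centre of each star -/
def ctr : Bool → Fin 3
  | false => 0
  | true => 1

/-- closeness of letters: the star with centre `ctr c` -/
def star (c : Bool) (v v' : Fin 3) : Prop := v = ctr c ∨ v' = ctr c

instance (c : Bool) (v v' : Fin 3) : Decidable (star c v v') := by unfold star; infer_instance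

instance (c : Bool) (v v' : Fin 3) : Decidable (farV star c v v') := by
  unfold farV; infer_instance

/-- the two classes of letters -/
def cls (v : Fin 3) : Bool := decide (v = 2)

/-- representatives of the classes -/
def sec : Bool → Fin 3
  | false => 0
  | true => 2

/-- independent letters in the first phase -/
def ind : Bool → Fin 3
  | false => 1
  | true => 2

theorem hκ : ∀ c v v', cls v = cls v' → ¬ farV star c v v' := by decide

theorem hι : ∀ a b, a ≠ b → farV star false (ind a) (ind b) := by decide

theorem hsec : ∀ c, cls (sec c) = c := by decide

theorem hcls : ∀ v v', ¬ farV star false v v' → ¬ farV star true v v' → cls v = cls v' := by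
  decide

theorem hctr : ∀ c v, ¬ farV star c (ctr c) v := by decide

/-- **Result** (positive answer to the second question). There is a topologically transitive
system `(X, F)` of finite entropy such that the lower and upper growth rates of `span` differ at
some scale `ε > 0`, while the lower and upper growth rates of `sep` agree at every scale. -/
theorem result : ∃ (X : Type) (_ : MetricSpace X) (_ : CompactSpace X) (F : X ≃ₜ X),
    Transitive F ∧ (∃ h : ℝ, HasEntropy F h) ∧
    (∃ ε : ℝ, 0 < ε ∧ lowerSpan F ε < upperSpan F ε) ∧
    ∀ δ : ℝ, 0 < δ → lowerSep F δ = upperSep F δ := by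
  obtain ⟨e, he⟩ := exists_surjective_nat (ℕ × List (Fin 3))
  refine ⟨Pt (clS star) (word e), inferInstance, compactSpace_pt, shiftHomeo,
    transitive_shift (word_isLim e), ⟨_, hasEntropy he⟩, ⟨1, one_pos, ?_⟩, ?_⟩
  · have h0 := lowerSpan_le_zero (adj := star) he ctr hctr (ε := 1) (by norm_num) le_rfl
    have hlog : 0 < Real.log (Fintype.card Bool) := by
      apply Real.log_pos
      simp
    have h1 := (upperSpan_ge (adj := star) (C := Bool) cls sec hsec hcls (by simp) he (ε := 1)
      (by norm_num) le_rfl (c := 1 / 5 * Real.log (Fintype.card Bool)) (by linarith)).1
    linarith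
  · intro δ hδ
    rcases le_or_gt δ (1 / 2) with h | h
    · have := tendsto_sep_small (adj := star) he hδ h
      exact this.liminf_eq.trans this.limsup_eq.symm
    · rcases le_or_gt δ 1 with h' | h'
      · have := tendsto_sep_mid (adj := star) cls hκ ind hι (by simp) he h h'
        exact this.liminf_eq.trans this.limsup_eq.symm
      · have := tendsto_sep_large (adj := star) (e := e) h'
        exact this.liminf_eq.trans this.limsup_eq.symm

end Pool.Agent.Results.MP_307271_an.SpanOscillatesTransitive
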